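import Pool.Agent.W361.LQ.Stm

set_option autoImplicit false
set_option linter.all false

namespace Pool.Agent.W918.LQ.CX

open Pool.Agent.Helper227 Pool.Agent.H685R3 Pool.Agent.W361.LQ
open Pool.Agent.W952.LP (zero)

section

variable {α : Type*} [Primcodable α]

theorem two_pow : Primrec fun m : ℕ => 2 ^ m :=
  (Primrec₂.unpaired'.1 Nat.Primrec.pow).comp (Primrec.const 2) Primrec.id

theorem p_M : Primrec M := Primrec.succ.comp (two_pow.comp two_pow)

theorem p_near {N a b : α → ℕ} (hN : Primrec N) (ha : Primrec a) (hb : Primrec b) (k : ℕ) :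
    PrimrecPred fun x => near (N x) k (a x) (b x) := by
  unfold near
  refine PP.ex_lt (p := fun x i => (a x + k) % N x = (b x + i) % N x) (f := fun _ => 2 * k + 1) ?_
    (Primrec.const _)
  exact Primrec.eq.comp (Primrec.nat_mod.comp (Primrec.nat_add.comp (ha.comp Primrec.fst)
    (Primrec.const k)) (hN.comp Primrec.fst)) (Primrec.nat_mod.comp (Primrec.nat_add.comp
    (hb.comp Primrec.fst) Primrec.snd) (hN.comp Primrec.fst))

end

/-- the parameters -/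
abbrev XX := (ℕ × List (ℕ × ℕ)) × ℕ

section

variable {Lt Gt : ℕ × ℕ × ℕ × ℕ → Prop} (hLt : S1 Lt) (hGt : S1 Gt) (C : List (ℕ × ℕ)) (d : ℕ)

include hGt in
theorem c_cover : SI (jump zero) fun x : XX => ∀ j, ∃ p ∈ x.1.2, ¬ Gt (j, p.1, 1, x.2) := by
  have h1 : S1 fun x : XX => ∃ j : ℕ, ∀ p ∈ x.1.2, Gt (j, p.1, 1, x.2) := by
    refine S1.ex (p := fun (x : XX) (j : ℕ) => ∀ p ∈ x.1.2, Gt (j, p.1, 1, x.2)) ?_
    refine S1.all_mem (p := fun (y : XX × ℕ) (p : ℕ × ℕ) => Gt (y.2, p.1, 1, y.1.2))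
      (f := fun y : XX × ℕ => y.1.1.2) ?_ (Primrec.snd.comp (Primrec.fst.comp Primrec.fst))
    exact hGt.comp (f := fun z : (XX × ℕ) × (ℕ × ℕ) => (z.1.2, z.2.1, 1, z.1.1.2))
      ((Primrec.snd.comp Primrec.fst).pair ((Primrec.fst.comp Primrec.snd).pair
        ((Primrec.const 1).pair (Primrec.snd.comp (Primrec.fst.comp Primrec.fst)))))
  exact (SI.of_s1 (B := zero) h1).decide_jump.2.of_eq fun x => by push Not; rfl

include hLt in
theorem c_cons : SI (jump zero) fun x : XX => ∀ p ∈ x.1.2, ∀ p' ∈ x.1.2,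
    Lt (p.1, p'.1, 3, x.2) → near (16 * M x.1.1) 2 p.2 p'.2 := by
  have h1 : SI (jump zero) fun x : XX => ∀ p ∈ x.1.2, ∀ p' ∈ x.1.2,
      (¬ Lt (p.1, p'.1, 3, x.2) ∨ near (16 * M x.1.1) 2 p.2 p'.2) := by
    refine SI.all_mem (p := fun (x : XX) (p : ℕ × ℕ) => ∀ p' ∈ x.1.2,
      (¬ Lt (p.1, p'.1, 3, x.2) ∨ near (16 * M x.1.1) 2 p.2 p'.2)) (f := fun x : XX => x.1.2) ?_
      (Primrec.snd.comp Primrec.fst)
    refine SI.all_mem (p := fun (y : XX × (ℕ × ℕ)) (p' : ℕ × ℕ) =>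
      (¬ Lt (y.2.1, p'.1, 3, y.1.2) ∨ near (16 * M y.1.1.1) 2 y.2.2 p'.2))
      (f := fun y : XX × (ℕ × ℕ) => y.1.1.2) ?_ (Primrec.snd.comp (Primrec.fst.comp Primrec.fst))
    refine SI.or ?_ (SI.of_prim ?_)
    · exact ((SI.of_s1 (B := zero) hLt).decide_jump.2).comp
        (f := fun z : (XX × (ℕ × ℕ)) × (ℕ × ℕ) => (z.1.2.1, z.2.1, 3, z.1.1.2))
        ((Primrec.fst.comp (Primrec.snd.comp Primrec.fst)).pair
          ((Primrec.fst.comp Primrec.snd).pair ((Primrec.const 3).pair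
            (Primrec.snd.comp (Primrec.fst.comp Primrec.fst)))))
    · refine p_near (N := fun z : (XX × (ℕ × ℕ)) × (ℕ × ℕ) => 16 * M z.1.1.1.1) ?_
        (Primrec.snd.comp (Primrec.snd.comp Primrec.fst)) (Primrec.snd.comp Primrec.snd) 2
      exact Primrec.nat_mul.comp (Primrec.const 16) (p_M.comp (Primrec.fst.comp (Primrec.fst.comp
        (Primrec.fst.comp Primrec.fst))))
  exact h1.of_eq fun x => by
    refine forall_congr' fun p => forall_congr' fun _ => forall_congr' fun p' =>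
      forall_congr' fun _ => imp_iff_not_or.symm

include hLt in
theorem c_root : SI (jump zero) fun x : XX => ∀ p ∈ x.1.2, ∃ c ∈ C,
    Lt (p.1, c.1, 1, d) ∧ near 16 2 p.2 c.2 := by
  have h1 : S1 fun x : XX => ∀ p ∈ x.1.2, ∃ c ∈ C, Lt (p.1, c.1, 1, d) ∧ near 16 2 p.2 c.2 := by
    refine S1.all_mem (p := fun (x : XX) (p : ℕ × ℕ) => ∃ c ∈ C,
      Lt (p.1, c.1, 1, d) ∧ near 16 2 p.2 c.2) (f := fun x : XX => x.1.2) ?_
      (Primrec.snd.comp Primrec.fst)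
    refine S1.ex (p := fun (y : XX × (ℕ × ℕ)) (c : ℕ × ℕ) => c ∈ C ∧
      Lt (y.2.1, c.1, 1, d) ∧ near 16 2 y.2.2 c.2) (S1.and (S1.of_prim ?_) (S1.and ?_ (S1.of_prim ?_)))
    · have h : PrimrecPred fun z : (XX × (ℕ × ℕ)) × (ℕ × ℕ) => ∃ b ∈ C, b = z.2 :=
        PP.ex_mem (α := (XX × (ℕ × ℕ)) × (ℕ × ℕ)) (f := fun _ => C) (p := fun z b => b = z.2)
          (Primrec.eq.comp Primrec.snd (Primrec.snd.comp Primrec.fst)) (Primrec.const C)
      exact h.of_eq fun x => by simp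
    · exact hLt.comp (f := fun z : (XX × (ℕ × ℕ)) × (ℕ × ℕ) => (z.1.2.1, z.2.1, 1, d))
        ((Primrec.fst.comp (Primrec.snd.comp Primrec.fst)).pair
          ((Primrec.fst.comp Primrec.snd).pair (Primrec.const (1, d))))
    · exact p_near (N := fun z : (XX × (ℕ × ℕ)) × (ℕ × ℕ) => 16) (Primrec.const 16)
        (Primrec.snd.comp (Primrec.snd.comp Primrec.fst)) (Primrec.snd.comp Primrec.snd) 2
  exact SI.of_s1 h1

end

theorem main : S_CX := by
  intro Lt Gt hLt hGt C d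
  have h : SI (jump zero) fun x : XX => Cond Lt Gt C d (M x.1.1) x.1.2 x.2 := by
    have h0 : SI (jump zero) fun x : XX => d ≤ x.2 :=
      SI.of_prim (Primrec.nat_le.comp (Primrec.const d) Primrec.snd)
    refine (SI.and h0 (SI.and (c_cover hGt) (SI.and (c_cons hLt) (c_root hLt C d)))).of_eq
      fun x => ?_
    constructor
    · rintro ⟨h1, h2, h3, h4⟩
      exact ⟨h1, h2, h3, h4⟩
    · rintro ⟨h1, h2, h3, h4⟩
      exact ⟨h1, h2, h3, h4⟩
  refine SI.ex (p := fun (n : ℕ) (E : List (ℕ × ℕ)) => ∃ e : ℕ, Cond Lt Gt C d (M n) E e) ?_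
  exact SI.ex (p := fun (y : ℕ × List (ℕ × ℕ)) (e : ℕ) => Cond Lt Gt C d (M y.1) y.2 e) h

end Pool.Agent.W918.LQ.CX
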